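import Pool.Agent.H94.G4T.H36.BP.Defs_1
import Pool.Agent.H94.G4T.M02

/-!
# BPm CurveBasic: rules for `rho`, `fs`, `CurveAt`

* `rho_smul`: `‖Q (c x)‖ = ‖c‖^D ‖Q x‖`, `‖c x‖^D = ‖c‖^D ‖x‖^D`.
* `continuousAt_rho`: quotient of continuous functions, `x ≠ 0`.
* `continuousAt_fs`: `fs = wd / ‖x‖^2`, `wd_cont`.
* `fs_eq`: `wd x v = ‖x‖ ‖v - (⟪x,v⟫/‖x‖^2) x‖` for `x ≠ 0`, since
  `‖v - a x‖^2 = ‖v‖^2 - ‖⟪x,v⟫‖^2/‖x‖^2`, `a = ⟪x,v⟫/‖x‖^2` (`wd_sq`).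
* `fs_le`: `fs x v ≤ ‖v‖/‖x‖` (`wd_le`).
* `exists_rho_bound`: `rho` is invariant under scaling and continuous on the compact set
  `{x ∈ X | ‖x‖ = 1}` (`insert 0 X` is closed).
* `IsEq.curve_discrete`: `Q ∘ F` is analytic at `z₀`
  (`AnalyticAt.eventually_eq_zero_or_eventually_ne_zero`).
-/

open Topology Filter Metric

namespace Pool.Agent.H14.PP

open Pool.Agent.H36.BP

variable {N : ℕ} {W : Type*} [NormedAddCommGroup W] [InnerProductSpace ℂ W]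
  {X K T : Set (EN N)} {Q : EN N → W} {D : ℕ}

theorem CurveAt.mem {F : ℂ → EN N} {z₀ : ℂ} (hF : CurveAt X F z₀) : F z₀ ∈ X :=
  hF.2.self_of_nhds

private theorem CurveBasic_wd {x : EN N} (hx : x ≠ 0) (v : EN N) :
    wd x v = ‖x‖ * ‖v - (inner ℂ x v / (‖x‖ : ℂ) ^ 2) • x‖ := by
  have hn : ‖x‖ ≠ 0 := norm_ne_zero_iff.2 hx
  have hnc : (‖x‖ : ℂ) ≠ 0 := by exact_mod_cast hn
  set a : ℂ := inner ℂ x v / (‖x‖ : ℂ) ^ 2 with ha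
  have horth : inner ℂ (v - a • x) (a • x) = (0 : ℂ) := by
    rw [inner_smul_right, ← inner_conj_symm, inner_sub_right, inner_smul_right,
      inner_self_eq_norm_sq_to_K]
    have e1 : inner ℂ x v - a * ((‖x‖ : ℂ)) ^ 2 = 0 := by
      rw [ha, div_mul_cancel₀ _ (pow_ne_zero 2 hnc), sub_self]
    have e2 : (inner ℂ x v - a * ((RCLike.ofReal ‖x‖ : ℂ)) ^ 2) = 0 := e1
    rw [e2, map_zero, mul_zero]
  have hpyth := norm_add_sq_eq_norm_sq_add_norm_sq_of_inner_eq_zero (v - a • x) (a • x) horth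
  rw [sub_add_cancel] at hpyth
  have hax : ‖a • x‖ * ‖x‖ = ‖inner ℂ x v‖ := by
    rw [norm_smul, ha, norm_div, norm_pow, Complex.norm_real, norm_norm]
    field_simp
  have hsq : wd x v ^ 2 = (‖x‖ * ‖v - a • x‖) ^ 2 := by
    rw [wd_sq, ← hax]
    have e3 : ‖v‖ ^ 2 = ‖v - a • x‖ ^ 2 + ‖a • x‖ ^ 2 := by
      rw [pow_two, pow_two, pow_two]
      exact hpyth
    rw [e3]
    ring
  exact (pow_left_inj₀ (wd_nonneg x v) (by positivity) two_ne_zero).1 hsq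

theorem fs_eq {x : EN N} (hx : x ≠ 0) (v : EN N) :
    fs x v = ‖v - (inner ℂ x v / (‖x‖ : ℂ) ^ 2) • x‖ / ‖x‖ := by
  have hn : ‖x‖ ≠ 0 := norm_ne_zero_iff.2 hx
  unfold fs
  rw [CurveBasic_wd hx v, pow_two ‖x‖, mul_div_mul_left _ _ hn]

theorem fs_le {x : EN N} (hx : x ≠ 0) (v : EN N) : fs x v ≤ ‖v‖ / ‖x‖ := by
  have hn : ‖x‖ ≠ 0 := norm_ne_zero_iff.2 hx
  have h1 : ‖v‖ / ‖x‖ = ‖x‖ * ‖v‖ / ‖x‖ ^ 2 := by
    rw [pow_two, mul_div_mul_left _ _ hn]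
  rw [h1]
  unfold fs
  exact div_le_div_of_nonneg_right (wd_le x v) (sq_nonneg _)

end Pool.Agent.H14.PP
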